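import Pool.Agent.W809.CI.Stm2

/-! Project CI, part JOIN: equivariant families over the join. -/

set_option autoImplicit false

open Set Filter Topology

namespace Pool.Agent.W91.CI

open Pool.Agent.W809.CI

section
variable {p n : ℕ} [NeZero p]

/-- total weight in the slot `i` -/
noncomputable def tot (w : EJoin p n) (i : Fin (n + 1)) : ℝ := ∑ g, w.1 i g

noncomputable def lam (w : EJoin p n) (i : ℕ) : ℝ :=
  if h : i < n + 1 then 3 * min 1 (((n : ℝ) + 1) * tot w ⟨i, h⟩) else 0

open Classical in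
noncomputable def aa (w : EJoin p n) (i : ℕ) : ℤ :=
  if h : i < n + 1 then (if h' : ∃ g, w.1 ⟨i, h⟩ g ≠ 0 then ((h'.choose).val : ℤ) else 0) else 0

lemma hval : Continuous (fun w : EJoin p n => w.1) := continuous_subtype_val

lemma hcoord (i : Fin (n + 1)) (g : ZMod p) : Continuous (fun w : EJoin p n => w.1 i g) :=
  (continuous_apply g).comp ((continuous_apply i).comp hval)

lemma tot_cont (i : Fin (n + 1)) : Continuous (fun w : EJoin p n => tot w i) := by
  unfold tot
  exact continuous_finsetSum _ fun g _ => hcoord i g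

lemma lam_cont (i : ℕ) : Continuous (fun w : EJoin p n => lam w i) := by
  unfold lam
  by_cases h : i < n + 1
  · simp only [dif_pos h]
    exact continuous_const.mul (continuous_const.min (continuous_const.mul (tot_cont _)))
  · simp only [dif_neg h]
    exact continuous_const

lemma tot_shift (w : EJoin p n) (i : Fin (n + 1)) : tot w.shift i = tot w i := by
  unfold tot
  exact Fintype.sum_equiv (Equiv.subRight 1) _ _ (fun g => rfl)

lemma lam_shift (w : EJoin p n) : lam w.shift = lam w := by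
  funext i
  unfold lam
  simp only [tot_shift]

lemma exists_of_lam {w : EJoin p n} {i : ℕ} (hi : i < n + 1) (h : lam w i ≠ 0) :
    ∃ g, w.1 ⟨i, hi⟩ g ≠ 0 := by
  by_contra hc
  push Not at hc
  apply h
  unfold lam
  rw [dif_pos hi]
  have : tot w ⟨i, hi⟩ = 0 := Finset.sum_eq_zero fun g _ => hc g
  rw [this, mul_zero, min_eq_right zero_le_one, mul_zero]

lemma aa_spec {w : EJoin p n} {i : ℕ} (hi : i < n + 1) (g : ZMod p) (hg : w.1 ⟨i, hi⟩ g ≠ 0) :
    aa w i = (g.val : ℤ) := by
  unfold aa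
  rw [dif_pos hi, dif_pos ⟨g, hg⟩]
  have h1 := (⟨g, hg⟩ : ∃ g, w.1 ⟨i, hi⟩ g ≠ 0).choose_spec
  rw [w.2.2.2 _ _ _ h1 hg]

lemma exists_three (w : EJoin p n) : ∃ i < n + 1, lam w i = 3 := by
  have h1 : ∑ _i : Fin (n + 1), (1 / ((n : ℝ) + 1)) ≤ ∑ i : Fin (n + 1), tot w i := by
    have h2 : ∑ i : Fin (n + 1), tot w i = 1 := w.2.2.1
    rw [h2, Finset.sum_const, Finset.card_univ, Fintype.card_fin, nsmul_eq_mul]
    push_cast
    rw [mul_one_div, div_self]
    positivity
  obtain ⟨i, -, hi⟩ := Finset.exists_le_of_sum_le Finset.univ_nonempty h1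
  refine ⟨i.1, i.2, ?_⟩
  unfold lam
  rw [dif_pos i.2]
  have h3 : (1 : ℝ) ≤ ((n : ℝ) + 1) * tot w i := by
    have h4 : (0 : ℝ) < (n : ℝ) + 1 := by positivity
    rw [div_le_iff₀ h4] at hi
    linarith
  rw [min_eq_left h3, mul_one]

end

attribute [local irreducible] stage

theorem join : S_STG1 → S_JOIN := by
  classical
  intro hS p n _ W hW h4W
  have hp : 0 < p := Nat.pos_of_ne_zero (NeZero.ne p)
  obtain ⟨h1, h2, h3, h4⟩ := hS p W hp hW h4W
  refine ⟨fun w => stage p W (lam w) (aa w) (n + 1), fun w => h1 _ _ _, ?_, ?_,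
    fun w => ⟨lam w, aa w, rfl⟩⟩
  · intro t
    -- the finite closed cover
    let Δ : (Fin (n + 1) → ZMod p) → Set (EJoin p n) := fun G => {w | ∀ i g, g ≠ G i → w.1 i g = 0}
    have hcl : ∀ G, IsClosed (Δ G) := by
      intro G
      have : Δ G = ⋂ i, ⋂ g, ⋂ _ : g ≠ G i, {w : EJoin p n | w.1 i g = 0} := by
        ext w; simp [Δ]
      rw [this]
      refine isClosed_iInter fun i => isClosed_iInter fun g => isClosed_iInter fun _ => ?_
      exact isClosed_eq (hcoord i g) continuous_const
    have hcov : ⋃ G, Δ G = univ := by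
      rw [eq_univ_iff_forall]
      intro w
      rw [mem_iUnion]
      have hex : ∀ i, ∃ gi : ZMod p, ∀ g, w.1 i g ≠ 0 → g = gi := by
        intro i
        by_cases h : ∃ g, w.1 i g ≠ 0
        · obtain ⟨g0, hg0⟩ := h
          exact ⟨g0, fun g hg => w.2.2.2 _ _ _ hg hg0⟩
        · push Not at h
          exact ⟨0, fun g hg => absurd (h g) hg⟩
      choose G hG using hex
      refine ⟨G, fun i g hg => ?_⟩
      by_contra hne
      exact hg (hG i g hne)
    refine LocallyFinite.continuous (locallyFinite_of_finite Δ) hcov hcl fun G => ?_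
    have hcont : ∀ a : ℕ → ℤ, Continuous (fun w : EJoin p n => stage p W (lam w) a (n + 1) t) := by
      intro a
      have h5 := h2 (EJoin p n) lam a (n + 1) lam_cont
      have h6 : Continuous (fun w : EJoin p n => ((w, t) : EJoin p n × ℝ)) :=
        continuous_id.prodMk continuous_const
      exact Continuous.comp (g := fun q : EJoin p n × ℝ => stage p W (lam q.1) a (n + 1) q.2) h5 h6
    refine (hcont (fun i => if h : i < n + 1 then ((G ⟨i, h⟩).val : ℤ) else 0)).continuousOn.congr ?_
    intro w hw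
    show stage p W (lam w) (aa w) (n + 1) t = _
    rw [h3 (lam w) (aa w) (fun i => if h : i < n + 1 then ((G ⟨i, h⟩).val : ℤ) else 0) (n + 1)]
    intro i hi hne
    obtain ⟨g, hg⟩ := exists_of_lam hi hne
    have hgG : g = G ⟨i, hi⟩ := by
      by_contra hc
      exact hg (hw _ _ hc)
    rw [aa_spec hi g hg, dif_pos hi, hgG, sub_self]
    exact dvd_zero _
  · intro w
    show stage p W (lam w.shift) (aa w.shift) (n + 1) = sh 1 (stage p W (lam w) (aa w) (n + 1))
    rw [lam_shift, h3 (lam w) (aa w.shift) (fun i => aa w i + 1) (n + 1),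
      h4 (lam w) (aa w) (n + 1) (exists_three w)]
    intro i hi hne
    obtain ⟨g, hg⟩ := exists_of_lam hi hne
    have hg1 : w.shift.1 ⟨i, hi⟩ (g + 1) ≠ 0 := by
      show w.1 ⟨i, hi⟩ (g + 1 - 1) ≠ 0
      rwa [add_sub_cancel_right]
    rw [aa_spec hi (g + 1) hg1, aa_spec hi g hg, ← ZMod.intCast_zmod_eq_zero_iff_dvd]
    push_cast
    rw [ZMod.natCast_zmod_val, ZMod.natCast_zmod_val, sub_self]

end Pool.Agent.W91.CI
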